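import Mathlib

/-!
# A connected 5-regular self 2-distance graph

The graph of the icosahedron (12 vertices, 5-regular) is isomorphic to its 2-distance graph. Hence
it is not true that for odd `k` no `k`-regular graph is a self 2-distance graph.
-/

set_option autoImplicit false

namespace Pool.Agent.Results.MP_325f40_co.Icosahedron

/-- The 2-distance graph of `G`: distinct vertices are adjacent exactly when their distance in `G`
is 2. (In Mathlib `G.dist x y` is the length of a shortest walk from `x` to `y`, and `0` if there is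
none.) -/
def twoDistanceGraph {V : Type*} (G : SimpleGraph V) : SimpleGraph V where
  Adj x y := x ≠ y ∧ G.dist x y = 2
  symm := ⟨fun x y h => ⟨h.1.symm, by rw [SimpleGraph.dist_comm]; exact h.2⟩⟩
  loopless := ⟨fun _ h => h.1 rfl⟩

/-- `G` is a self 2-distance graph: it is isomorphic to its 2-distance graph. -/
def IsSelfTwoDistance {V : Type*} (G : SimpleGraph V) : Prop := Nonempty (G ≃g twoDistanceGraph G)

lemma dist_eq_two_iff {V : Type*} (G : SimpleGraph V) (x y : V) :
    G.dist x y = 2 ↔ x ≠ y ∧ ¬ G.Adj x y ∧ ∃ z, G.Adj x z ∧ G.Adj z y := by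
  constructor
  · intro h
    have hr : G.Reachable x y := by
      by_contra hr
      rw [SimpleGraph.dist_eq_zero_of_not_reachable hr] at h
      omega
    obtain ⟨p, hp⟩ := hr.exists_walk_length_eq_dist
    rw [h] at hp
    refine ⟨?_, ?_, ?_⟩
    · rintro rfl
      rw [SimpleGraph.dist_self] at h
      omega
    · intro ha
      rw [SimpleGraph.dist_eq_one_iff_adj.2 ha] at h
      omega
    · cases p with
      | nil => simp at hp
      | cons h1 q =>
        cases q with
        | nil => simp at hp
        | cons h2 r =>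
          cases r with
          | nil => exact ⟨_, h1, h2⟩
          | cons h3 s => simp at hp
  · rintro ⟨hne, hna, z, h1, h2⟩
    let w : G.Walk x y := SimpleGraph.Walk.cons h1 (SimpleGraph.Walk.cons h2 SimpleGraph.Walk.nil)
    have hle : G.dist x y ≤ 2 := by
      have := SimpleGraph.dist_le w
      simpa [w] using this
    have hr : G.Reachable x y := ⟨w⟩
    have h0 : G.dist x y ≠ 0 := by
      intro h
      exact hne (hr.dist_eq_zero_iff.1 h)
    have h1' : G.dist x y ≠ 1 := by
      intro h
      exact hna (SimpleGraph.dist_eq_one_iff_adj.1 h)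
    omega

/-- the neighbours of the vertices of the icosahedron -/
def nbrs : Fin 12 → List (Fin 12) :=
  ![[1, 2, 3, 4, 5], [0, 2, 5, 6, 7], [0, 1, 3, 7, 8], [0, 2, 4, 8, 9], [0, 3, 5, 9, 10],
    [0, 1, 4, 6, 10], [1, 5, 7, 10, 11], [1, 2, 6, 8, 11], [2, 3, 7, 9, 11], [3, 4, 8, 10, 11],
    [4, 5, 6, 9, 11], [6, 7, 8, 9, 10]]

/-- the icosahedron graph -/
def ico : SimpleGraph (Fin 12) where
  Adj x y := y ∈ nbrs x
  symm := ⟨by decide⟩
  loopless := ⟨by decide⟩

instance : DecidableRel ico.Adj := fun x y => inferInstanceAs (Decidable (y ∈ nbrs x))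

/-- the isomorphism onto the 2-distance graph -/
def f : Fin 12 → Fin 12 := ![0, 6, 8, 10, 7, 9, 2, 4, 1, 3, 5, 11]
/-- its inverse -/
def g : Fin 12 → Fin 12 := ![0, 8, 6, 9, 7, 10, 1, 4, 2, 5, 3, 11]

lemma key : ∀ x y : Fin 12, ico.Adj x y ↔
    (f x ≠ f y ∧ f x ≠ f y ∧ ¬ ico.Adj (f x) (f y) ∧ ∃ z, ico.Adj (f x) z ∧ ico.Adj z (f y)) := by
  decide +kernel

/-- There is a connected 5-regular graph (on 12 vertices) which is isomorphic to its 2-distance
graph. -/
theorem result : ∃ G : SimpleGraph (Fin 12), G.Connected ∧ (∀ v, (G.neighborSet v).ncard = 5) ∧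
    IsSelfTwoDistance G := by
  refine ⟨ico, ?_, ?_, ⟨⟨⟨f, g, by decide, by decide⟩, ?_⟩⟩⟩
  · rw [SimpleGraph.connected_iff]
    refine ⟨?_, ⟨0⟩⟩
    have h0 : ∀ y : Fin 12, ico.Reachable 0 y := by
      have h1 : ∀ y : Fin 12, y = 0 ∨ ico.Adj 0 y ∨ (∃ z, ico.Adj 0 z ∧ ico.Adj z y) ∨
          ∃ z w, ico.Adj 0 z ∧ ico.Adj z w ∧ ico.Adj w y := by decide +kernel
      intro y
      rcases h1 y with rfl | h | ⟨z, h, h'⟩ | ⟨z, w, h, h', h''⟩
      · exact SimpleGraph.Reachable.refl _
      · exact h.reachable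
      · exact h.reachable.trans h'.reachable
      · exact (h.reachable.trans h'.reachable).trans h''.reachable
    intro x y
    exact (h0 x).symm.trans (h0 y)
  · intro v
    have : (ico.neighborSet v) = ((nbrs v).toFinset : Set (Fin 12)) := by
      ext y
      simp [ico]
    rw [this, Set.ncard_coe_finset]
    clear this
    revert v
    decide
  · intro x y
    show (f x ≠ f y ∧ ico.dist (f x) (f y) = 2) ↔ ico.Adj x y
    rw [dist_eq_two_iff, key x y]

end Pool.Agent.Results.MP_325f40_co.Icosahedron
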